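import Mathlib

namespace Pool.Agent.Results.MP_295a7b_co.NineVertices

open Finset

/-- The 13 edges (as increasing triples) of the base 3-graph on 7 vertices. -/
def base : Finset (Fin 7 × Fin 7 × Fin 7) :=
  {(3, 4, 5), (2, 3, 4), (2, 5, 6), (0, 4, 6), (1, 4, 6), (2, 3, 6), (0, 3, 6), (1, 5, 6),
   (1, 2, 4), (0, 1, 3), (1, 3, 5), (0, 1, 2), (0, 2, 5)}

theorem base_sorted : ∀ t ∈ base, t.1 < t.2.1 ∧ t.2.1 < t.2.2 := by decide +kernel

set_option synthInstance.maxSize 2000 in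
theorem poly_bound_aux : ∀ a0 < 10, ∀ a1 < 10 - a0, ∀ a2 < 10 - a0 - a1,
    ∀ a3 < 10 - a0 - a1 - a2, ∀ a4 < 10 - a0 - a1 - a2 - a3,
    ∀ a5 < 10 - a0 - a1 - a2 - a3 - a4, ∀ a6 < 10 - a0 - a1 - a2 - a3 - a4 - a5,
    a3 * (a4 * a5) + (a2 * (a3 * a4) + (a2 * (a5 * a6) + (a0 * (a4 * a6) + (a1 * (a4 * a6) +
      (a2 * (a3 * a6) + (a0 * (a3 * a6) + (a1 * (a5 * a6) + (a1 * (a2 * a4) + (a0 * (a1 * a3) +
      (a1 * (a3 * a5) + (a0 * (a1 * a2) + a0 * (a2 * a5)))))))))))) ≤ 27 := by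
  decide +kernel

theorem poly_bound (a : Fin 7 → ℕ) (h : ∑ i, a i = 9) :
    ∑ t ∈ base, a t.1 * (a t.2.1 * a t.2.2) ≤ 27 := by
  simp only [Fin.sum_univ_seven] at h
  have := poly_bound_aux (a 0) (by omega) (a 1) (by omega) (a 2) (by omega) (a 3) (by omega)
    (a 4) (by omega) (a 5) (by omega) (a 6) (by omega)
  unfold base
  repeat rw [sum_insert (by decide)]
  rw [sum_singleton]
  exact this

section
variable {V : Type} [DecidableEq V] (c : V → Fin 7)

/-- ordered triples inside `S` whose colour pattern is an edge of the base graph -/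
def tri (S : Finset V) : Finset (V × V × V) :=
  (S ×ˢ S ×ˢ S).filter (fun p => (c p.1, c p.2.1, c p.2.2) ∈ base)

theorem tri_card (S : Finset V) :
    (tri c S).card = ∑ t ∈ base, (S.filter (fun v => c v = t.1)).card *
      ((S.filter (fun v => c v = t.2.1)).card * (S.filter (fun v => c v = t.2.2)).card) := by
  rw [card_eq_sum_card_fiberwise (s := tri c S)
    (f := fun p : V × V × V => (c p.1, c p.2.1, c p.2.2))
    (t := base) (fun p hp => (mem_filter.1 (mem_coe.1 hp)).2)]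
  apply sum_congr rfl
  intro t ht
  rw [← card_product, ← card_product]
  congr 1
  ext ⟨x, y, z⟩
  simp only [tri, mem_filter, mem_product]
  constructor
  · rintro ⟨⟨⟨hx, hy, hz⟩, -⟩, rfl⟩
    exact ⟨⟨hx, rfl⟩, ⟨hy, rfl⟩, hz, rfl⟩
  · rintro ⟨⟨hx, h1⟩, ⟨hy, h2⟩, hz, h3⟩
    have : (c x, c y, c z) = t := by rw [h1, h2, h3]
    exact ⟨⟨⟨hx, hy, hz⟩, this ▸ ht⟩, this⟩

/-- the unordered edge of an ordered triple -/
def toEdge (p : V × V × V) : Finset V := {p.1, p.2.1, p.2.2}

theorem toEdge_injOn (S : Finset V) : Set.InjOn (toEdge (V := V)) (tri c S : Set (V × V × V)) := by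
  rintro ⟨x, y, z⟩ hp ⟨x', y', z'⟩ hq h
  have h1 := base_sorted _ (mem_filter.1 (mem_coe.1 hp)).2
  have h2 := base_sorted _ (mem_filter.1 (mem_coe.1 hq)).2
  simp only [toEdge] at h h1 h2
  have hx : x ∈ ({x', y', z'} : Finset V) := h ▸ (by simp)
  have hy : y ∈ ({x', y', z'} : Finset V) := h ▸ (by simp)
  have hz : z ∈ ({x', y', z'} : Finset V) := h ▸ (by simp)
  simp only [mem_insert, mem_singleton] at hx hy hz
  rcases hx with rfl | rfl | rfl <;> rcases hy with rfl | rfl | rfl <;>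
    rcases hz with rfl | rfl | rfl <;> first | rfl | (exfalso; omega)

theorem toEdge_card (S : Finset V) (p : V × V × V) (hp : p ∈ tri c S) : (toEdge p).card = 3 := by
  obtain ⟨x, y, z⟩ := p
  have h1 := base_sorted _ (mem_filter.1 hp).2
  simp only at h1
  rw [toEdge, card_eq_three]
  refine ⟨x, y, z, ?_, ?_, ?_, rfl⟩ <;> rintro rfl <;> omega

end

theorem result (n : ℕ) (hn : 270 ≤ n) :
    ∃ E : Finset (Finset (Fin (3 * n))),
      (∀ e ∈ E, e.card = 3) ∧ E.card = n ^ 3 + 1 ∧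
      ∀ S : Finset (Fin (3 * n)), S.card = 9 → (E.filter (fun e => e ⊆ S)).card ≤ 27 := by
  let c : Fin (3 * n) → Fin 7 := fun v => ⟨v.val % 7, Nat.mod_lt _ (by norm_num)⟩
  have hcls : ∀ i : Fin 7, 3 * n / 7 ≤ (univ.filter (fun v => c v = i)).card := by
    intro i
    have : (range (3 * n / 7)).card ≤ ((univ.filter (fun v => c v = i)).map Fin.valEmbedding).card := by
      apply card_le_card_of_injOn (fun j => 7 * j + i.val)
      · intro j hj
        simp only [coe_range, Set.mem_Iio] at hj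
        simp only [coe_map, Set.mem_image, mem_coe, mem_filter, mem_univ, true_and]
        refine ⟨⟨7 * j + i.val, by have := i.2; omega⟩, ?_, rfl⟩
        ext; simp only [c]; have := i.2; omega
      · intro j _ k _ h
        simp only at h; omega
    simpa using this
  have hbig : n ^ 3 + 1 ≤ ((tri c univ).image toEdge).card := by
    rw [card_image_of_injOn (toEdge_injOn c univ), tri_card]
    have h1 : ∑ t ∈ base, (3 * n / 7) * ((3 * n / 7) * (3 * n / 7)) ≤
        ∑ t ∈ base, (univ.filter (fun v => c v = t.1)).card *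
          ((univ.filter (fun v => c v = t.2.1)).card * (univ.filter (fun v => c v = t.2.2)).card) :=
      sum_le_sum fun t _ => Nat.mul_le_mul (hcls _) (Nat.mul_le_mul (hcls _) (hcls _))
    refine le_trans ?_ h1
    have hb : base.card = 13 := by decide
    rw [sum_const, hb, smul_eq_mul]
    obtain ⟨m, rfl⟩ : ∃ m, n = m + 270 := ⟨n - 270, by omega⟩
    set q := 3 * (m + 270) / 7 with hq
    have h2 : 3 * (m + 268) ≤ 7 * q := by omega
    have h3 : (3 * (m + 268)) ^ 3 ≤ (7 * q) ^ 3 := Nat.pow_le_pow_left h2 3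
    nlinarith [h3, Nat.zero_le (m ^ 3), Nat.zero_le (m ^ 2), Nat.zero_le m]
  obtain ⟨E, hE, hEc⟩ := exists_subset_card_eq hbig
  refine ⟨E, ?_, hEc, ?_⟩
  · intro e he
    obtain ⟨p, hp, rfl⟩ := mem_image.1 (hE he)
    exact toEdge_card c univ p hp
  · intro S hS
    have h1 : E.filter (fun e => e ⊆ S) ⊆ (tri c S).image toEdge := by
      intro e he
      obtain ⟨he1, he2⟩ := mem_filter.1 he
      obtain ⟨⟨x, y, z⟩, hp, rfl⟩ := mem_image.1 (hE he1)
      refine mem_image.2 ⟨(x, y, z), ?_, rfl⟩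
      simp only [tri, mem_filter, mem_product] at hp ⊢
      exact ⟨⟨he2 (by simp [toEdge]), he2 (by simp [toEdge]), he2 (by simp [toEdge])⟩, hp.2⟩
    refine (card_le_card h1).trans (card_image_le.trans ?_)
    rw [tri_card]
    apply poly_bound (fun i => (S.filter (fun v => c v = i)).card)
    rw [← hS]
    exact (card_eq_sum_card_fiberwise (f := c) (t := univ) (fun _ _ => mem_univ _)).symm

end Pool.Agent.Results.MP_295a7b_co.NineVertices
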